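import Pool.Agent.Helper11K9.KN.Kneser
import Pool.Agent.Helper11K9.KR.Pol

/-!
Canonical forms of images and linear spans of fibres.
-/

set_option autoImplicit false
set_option linter.overlappingInstances false
set_option linter.unusedSectionVars false

open FF IntermediateField

namespace Pool.Agent.Helper11K9.KN

open Pool.Agent.W602.GT (Divisorial RegAt IsPluri KodGe LogSec)
open Pool.Agent.R882.Over (GenusZero)
open Pool.Agent.Helper11K9.PR Pool.Agent.Helper11K9.KR

section

variable {L K : Type} [Field L] [Field K] [Algebra L K] [FiniteDimensional L K]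

/-- a finite separable extension has finitely many intermediate fields -/
theorem fin_int [CharZero L] : Finite (IntermediateField L K) :=
  Field.finite_intermediateField_of_exists_primitive_element L K
    (Field.exists_primitive_element L K)

/-- a product of spans is contained in a subspace if the products of the generators are -/
theorem prod_le {k : ℕ} {a : Fin k → ℕ} (t : ∀ i, Fin (a i) → K) (Q : Submodule L K)
    (h : ∀ e : ∀ i, Fin (a i), ∏ i, t i (e i) ∈ Q) :
    ∏ i, Submodule.span L (Set.range (t i)) ≤ Q := by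
  rw [Submodule.prod_span, Submodule.span_le]
  intro x hx
  rw [Set.mem_finsetProd] at hx
  obtain ⟨g, hg, rfl⟩ := hx
  choose e he using fun i => hg (Finset.mem_univ i)
  have h1 := h e
  simp only [he] at h1
  exact h1

/-- the trace form is nondegenerate -/
theorem exists_trace [CharZero L] {J : K} (hJ : J ≠ 0) : ∃ x : K, Algebra.trace L K (J * x) ≠ 0 := by
  refine ⟨J⁻¹, ?_⟩
  rw [mul_inv_cancel₀ hJ]
  have h1 : Algebra.trace L K (1 : K) = (Module.finrank L K : L) := by
    have h2 := Algebra.trace_algebraMap (S := K) (1 : L)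
    rw [map_one] at h2
    rw [h2, nsmul_eq_mul, mul_one]
  rw [h1]
  exact_mod_cast (Module.finrank_pos (R := L) (M := K)).ne'

end

/-- the products of the values have nonzero traces -/
theorem exists_ne {K : Type} [Field K] {L : Type} [Field L] [Algebra L K]
    [FiniteDimensional L K] [CharZero L] {k : ℕ} {a : Fin k → ℕ} {t : ∀ i, Fin (a i) → K}
    (ht : ∀ i, ∃ j, t i j ≠ 0) {J : K} (hJ : J ≠ 0)
    (h : ∀ M : IntermediateField L K, M ≠ ⊤ →
      Module.finrank M K + k ≤ 1 + ∑ i, Module.finrank M (Submodule.span M (Set.range (t i)))) :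
    ∃ e : ∀ i, Fin (a i), Algebra.trace L K (J * ∏ i, t i (e i)) ≠ 0 := by
  have hfin : Finite (IntermediateField L K) := fin_int
  have htop := prod_eq_top (fun i => Submodule.span L (Set.range (t i))) (fun i => by
    obtain ⟨j, hj⟩ := ht i
    intro h0
    apply hj
    rw [← Submodule.mem_bot L, ← h0]
    exact Submodule.subset_span ⟨j, rfl⟩) (fun M hM => by
    have h1 := h M hM
    have h2 : ∀ i, Submodule.span M ((Submodule.span L (Set.range (t i)) : Submodule L K) : Set K) =
        Submodule.span M (Set.range (t i)) := fun i => by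
      exact Submodule.span_span_of_tower L M (Set.range (t i))
    have h3 : ∑ i, Module.finrank M (Submodule.span M
        ((Submodule.span L (Set.range (t i)) : Submodule L K) : Set K)) =
        ∑ i, Module.finrank M (Submodule.span M (Set.range (t i))) :=
      Finset.sum_congr rfl fun i _ => by rw [h2]
    exact h1.trans_eq (congrArg (fun z => 1 + z) h3.symm))
  by_contra hcon
  push Not at hcon
  obtain ⟨x, hx⟩ := exists_trace (L := L) hJ
  apply hx
  have h1 : ∏ i, Submodule.span L (Set.range (t i)) ≤
      LinearMap.ker ((Algebra.trace L K).comp (LinearMap.mulLeft L J)) :=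
    prod_le t _ fun e => by
      rw [LinearMap.mem_ker]
      exact hcon e
  rw [htop] at h1
  exact LinearMap.mem_ker.1 (h1 (by trivial : x ∈ (⊤ : Submodule L K)))

/-- **Canonical forms of images.** -/
theorem gen_kn {K : Type} [Field K] [Algebra ℂ K] [Algebra.EssFiniteType ℂ K] {k n : ℕ}
    (hn : Algebra.trdeg ℂ K = n) {a : Fin k → ℕ} {t : ∀ i, Fin (a i) → K}
    (ht : ∀ i, ∃ j, t i j ≠ 0) {W : (Fin n → Derivation ℂ K K) → K} (hW : IsPluri 1 W)
    (hW0 : ∃ G, W G ≠ 0)
    (hreg : ∀ e : ∀ i, Fin (a i), ∀ P : Place ℂ K, Divisorial n P →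
      RegAt P (fun G => (∏ i, t i (e i)) * W G))
    (L : IntermediateField ℂ K) [FiniteDimensional L K]
    (h : ∀ M : IntermediateField L K, M ≠ ⊤ →
      Module.finrank M K + k ≤ 1 + ∑ i, Module.finrank M (Submodule.span M (Set.range (t i)))) :
    ¬ GenusZero L n := by
  classical
  have hK0 : CharZero K := charZero_of_injective_algebraMap (algebraMap ℂ K).injective
  have hL0 : CharZero L := charZero_of_injective_algebraMap (algebraMap ℂ L).injective
  have hessL : Algebra.EssFiniteType ℂ L := Pool.Agent.TH466.QG.ess_below (K := K)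
  have hL : Algebra.trdeg ℂ L = n := Pool.Agent.Y184.NT.trdeg_below (K := K) hn
  obtain ⟨z, E, hz, hE⟩ := Pool.Agent.Y172.exists_crd (k := ℂ) (K := L) hL
  choose E' hE' using fun i => Pool.Agent.Y172.exists_lift (k := ℂ) (K := L) (L := K) hL (E i)
  have hzK : IsTranscendenceBasis ℂ (fun j => algebraMap L K (z j)) := hz.algebraMap_comp
  have hE'd := Pool.Agent.Y172.lift_dual hE hE'
  obtain ⟨J, hJ⟩ : ∃ J : K, J = W E' := ⟨_, rfl⟩
  have hJ0 : J ≠ 0 := by
    obtain ⟨G, hG⟩ := hW0
    have h1 := Pool.Agent.Y172.pluri_coord hzK hE'd hW G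
    rw [h1] at hG
    rw [hJ]
    exact right_ne_zero_of_mul hG
  have hpl : ∀ e : ∀ i, Fin (a i), IsPluri 1 (fun G => (∏ i, t i (e i)) * W G) := by
    intro e A G
    change (∏ i, t i (e i)) * W _ = _ * ((∏ i, t i (e i)) * W G)
    rw [hW A G]
    ring
  intro h0
  obtain ⟨e, he⟩ := exists_ne ht hJ0 h
  apply he
  have h1 := Pool.Agent.Y692.NT.t_Tr L K n hL h0 (fun G => (∏ i, t i (e i)) * W G)
    (hpl e) (hreg e) E E' hE'
  change Algebra.trace L K ((∏ i, t i (e i)) * W E') = 0 at h1
  rwa [← hJ, mul_comm] at h1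

end Pool.Agent.Helper11K9.KN
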