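import Pool.Agent.Helper11K9.KN.KneserB
import Pool.Agent.Helper11K9.KN.Gen

/-!
Ratios of functions are algebraic over the field of the ratios of the traces.
-/

set_option autoImplicit false
set_option linter.overlappingInstances false
set_option linter.unusedSectionVars false

open IntermediateField Matrix

namespace Pool.Agent.Helper11K9.KN

section

variable {K : Type} [Field K] [Algebra ℂ K] {L : Type} [Field L] [Algebra ℂ L] [Algebra L K]
  [IsScalarTower ℂ L K] [FiniteDimensional L K]

/-- If the Gram matrices of two elements with respect to spanning sets have entries in a subfield, up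
to a common factor, then the ratio is algebraic over the subfield. -/
theorem alg_ratio (N : IntermediateField ℂ L) {J w w' : K} {T : L} (hJ : J ≠ 0) (hw' : w' ≠ 0)
    (hT : T ≠ 0) {SA SB : Set K} (hA : ⊤ ≤ Submodule.span L SA) (hB : ⊤ ≤ Submodule.span L SB)
    (h1 : ∀ x ∈ SA, ∀ y ∈ SB, Algebra.trace L K (J * (w * (x * y))) / T ∈ N)
    (h2 : ∀ x ∈ SA, ∀ y ∈ SB, Algebra.trace L K (J * (w' * (x * y))) / T ∈ N) :
    IsAlgebraic N (w / w') := by
  classical
  have hL0 : CharZero L := charZero_of_injective_algebraMap (algebraMap ℂ L).injective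
  let bx0 := Module.Basis.ofSpan hA
  let by0 := Module.Basis.ofSpan hB
  have hxm0 : ∀ i, bx0 i ∈ SA := fun i => Module.Basis.ofSpan_subset hA ⟨i, rfl⟩
  have hym0 : ∀ i, by0 i ∈ SB := fun i => Module.Basis.ofSpan_subset hB ⟨i, rfl⟩
  have : Finite _ := Module.Finite.finite_basis bx0
  have : Finite _ := Module.Finite.finite_basis by0
  obtain ⟨r, hr⟩ : ∃ r, r = Module.finrank L K := ⟨_, rfl⟩
  let bx : Module.Basis (Fin r) L K := bx0.reindex (Fintype.equivFinOfCardEq (by
    rw [hr, Module.finrank_eq_card_basis bx0]))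
  let b_y : Module.Basis (Fin r) L K := by0.reindex (Fintype.equivFinOfCardEq (by
    rw [hr, Module.finrank_eq_card_basis by0]))
  have hxm : ∀ i, bx i ∈ SA := fun i => by
    rw [Module.Basis.reindex_apply]
    exact hxm0 _
  have hym : ∀ i, b_y i ∈ SB := fun i => by
    rw [Module.Basis.reindex_apply]
    exact hym0 _
  -- the matrices
  obtain ⟨G, hG⟩ : ∃ G : K → Matrix (Fin r) (Fin r) L,
    G = fun v => Matrix.of fun i j => Algebra.trace L K (J * (v * (bx i * b_y j))) / T := ⟨_, rfl⟩
  have hGv : ∀ v i j, G v i j = Algebra.trace L K (J * (v * (bx i * b_y j))) / T := by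
    intro v i j
    rw [hG]
    rfl
  have hGmul : ∀ v c : K, G (v * c) = (Algebra.leftMulMatrix bx c)ᵀ * G v := by
    intro v c
    ext i j
    rw [hGv, Matrix.mul_apply]
    have h3 : c * bx i = ∑ l, Algebra.leftMulMatrix bx c l i • bx l := by
      rw [← bx.sum_repr (c * bx i)]
      refine Finset.sum_congr rfl fun l _ => ?_
      rw [Algebra.leftMulMatrix_eq_repr_mul]
    have h4 : J * (v * c * (bx i * b_y j)) =
        ∑ l, Algebra.leftMulMatrix bx c l i • (J * (v * (bx l * b_y j))) := by
      have h5 : J * (v * c * (bx i * b_y j)) = J * (v * (c * bx i * b_y j)) := by ring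
      rw [h5, h3, Finset.sum_mul, Finset.mul_sum, Finset.mul_sum]
      refine Finset.sum_congr rfl fun l _ => ?_
      rw [smul_mul_assoc, mul_smul_comm, mul_smul_comm]
    rw [h4, map_sum, Finset.sum_div]
    refine Finset.sum_congr rfl fun l _ => ?_
    rw [map_smul, smul_eq_mul, Matrix.transpose_apply, hGv, mul_div_assoc]
  have hdet : ∀ v : K, v ≠ 0 → (G v).det ≠ 0 := by
    intro v hv h0
    obtain ⟨z, hz0, hz⟩ := Matrix.exists_vecMul_eq_zero_iff.2 h0
    obtain ⟨Z, hZ⟩ : ∃ Z : K, Z = ∑ i, z i • bx i := ⟨_, rfl⟩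
    have hZ0 : Z ≠ 0 := by
      intro h
      apply hz0
      rw [hZ] at h
      funext i
      exact (Fintype.linearIndependent_iff.1 bx.linearIndependent) z h i
    have h3 : ∀ j, Algebra.trace L K (J * v * Z * b_y j) = 0 := by
      intro j
      have h4 := congrFun hz j
      rw [Matrix.vecMul, dotProduct, Pi.zero_apply] at h4
      have h5 : ∀ i, z i * G v i j = Algebra.trace L K (z i • (J * (v * (bx i * b_y j)))) / T := by
        intro i
        rw [hGv, map_smul, smul_eq_mul, mul_div_assoc]
      simp only [h5] at h4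
      rw [← Finset.sum_div, div_eq_zero_iff, or_iff_left hT, ← map_sum] at h4
      rw [← h4]
      congr 1
      rw [hZ, Finset.mul_sum, Finset.sum_mul]
      refine Finset.sum_congr rfl fun i _ => ?_
      rw [mul_smul_comm, smul_mul_assoc]
      congr 1
      ring
    obtain ⟨y, hy⟩ := exists_trace (L := L) (J := J * v * Z) (mul_ne_zero (mul_ne_zero hJ hv) hZ0)
    apply hy
    rw [← b_y.sum_repr y, Finset.mul_sum, map_sum]
    refine Finset.sum_eq_zero fun j _ => ?_
    rw [mul_smul_comm, map_smul, h3, smul_zero]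
  -- the matrices over the subfield
  obtain ⟨A, hA'⟩ : ∃ A : Matrix (Fin r) (Fin r) N, A.map (algebraMap N L) = G w := by
    refine ⟨Matrix.of fun i j => ⟨G w i j, ?_⟩, ?_⟩
    · rw [hGv]
      exact h1 _ (hxm i) _ (hym j)
    · ext i j
      rfl
  obtain ⟨B, hB'⟩ : ∃ B : Matrix (Fin r) (Fin r) N, B.map (algebraMap N L) = G w' := by
    refine ⟨Matrix.of fun i j => ⟨G w' i j, ?_⟩, ?_⟩
    · rw [hGv]
      exact h2 _ (hxm i) _ (hym j)
    · ext i j
      rfl
  have hBdet : B.det ≠ 0 := by
    intro h0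
    apply hdet w' hw'
    rw [← hB', ← RingHom.mapMatrix_apply, ← RingHom.map_det, h0, map_zero]
  have hBu : IsUnit B.det := isUnit_iff_ne_zero.2 hBdet
  have hGu : IsUnit (G w').det := isUnit_iff_ne_zero.2 (hdet w' hw')
  obtain ⟨C, hC⟩ : ∃ C, C = A * B⁻¹ := ⟨_, rfl⟩
  have hCB : C * B = A := by
    rw [hC, Matrix.mul_assoc, Matrix.nonsing_inv_mul _ hBu, Matrix.mul_one]
  have hCm : C.map (algebraMap N L) = (Algebra.leftMulMatrix bx (w / w'))ᵀ := by
    have h3 : C.map (algebraMap N L) * G w' = (Algebra.leftMulMatrix bx (w / w'))ᵀ * G w' := by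
      rw [← hGmul, mul_div_cancel₀ _ hw', ← hB', ← Matrix.map_mul, hCB, hA']
    have h4 := congrArg (fun X => X * (G w')⁻¹) h3
    simp only [Matrix.mul_assoc, Matrix.mul_nonsing_inv _ hGu, Matrix.mul_one] at h4
    exact h4
  refine ⟨C.charpoly, C.charpoly_monic.ne_zero, ?_⟩
  have h3 : (Algebra.leftMulMatrix bx (w / w')).charpoly = C.charpoly.map (algebraMap N L) := by
    rw [← Matrix.charpoly_map, hCm, Matrix.charpoly_transpose]
  have h4 : Polynomial.aeval (w / w') (Algebra.leftMulMatrix bx (w / w')).charpoly = 0 := by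
    apply Algebra.leftMulMatrix_injective bx
    rw [map_zero, ← Polynomial.aeval_algHom_apply, Matrix.aeval_self_charpoly]
  rw [h3, Polynomial.aeval_map_algebraMap] at h4
  exact h4

end

end Pool.Agent.Helper11K9.KN
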