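import Pool.Agent.Helper11K9.KN.Bil
import Pool.Agent.Helper11K9.KR.Down

/-!
The Kodaira dimension of images and linear spans of fibres.
-/

set_option autoImplicit false
set_option linter.overlappingInstances false
set_option linter.unusedSectionVars false

open FF IntermediateField

namespace Pool.Agent.Helper11K9.KN

open Pool.Agent.W602.GT (Divisorial RegAt IsPluri KodGe LogSec)
open Pool.Agent.R882.Over (GenusZero)
open Pool.Agent.Helper11K9.PR Pool.Agent.Helper11K9.KR

section

variable {L K : Type} [Field L] [Field K] [Algebra L K] [FiniteDimensional L K]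

/-- products of coordinates span `K` -/
theorem span_top [CharZero L] {k : ℕ} {a : Fin k → ℕ} {t : ∀ i, Fin (a i) → K}
    (ht : ∀ i, ∃ j, t i j ≠ 0) (A : Finset (Fin k))
    (h : ∀ M : IntermediateField L K, M ≠ ⊤ →
      Module.finrank M K + A.card ≤
        1 + ∑ i ∈ A, Module.finrank M (Submodule.span M (Set.range (t i)))) :
    ⊤ ≤ Submodule.span L {x : K | ∃ e : ∀ i, Fin (a i), x = ∏ i ∈ A, t i (e i)} := by
  classical
  have hfin : Finite (IntermediateField L K) := fin_int
  have htop := prod_eq_top_finset (fun i => Submodule.span L (Set.range (t i))) (fun i => by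
    obtain ⟨j, hj⟩ := ht i
    intro h0
    apply hj
    rw [← Submodule.mem_bot L, ← h0]
    exact Submodule.subset_span ⟨j, rfl⟩) A (fun M hM => by
    have h1 := h M hM
    have h2 : ∀ i, Submodule.span M ((Submodule.span L (Set.range (t i)) : Submodule L K) : Set K) =
        Submodule.span M (Set.range (t i)) := fun i => by
      exact Submodule.span_span_of_tower L M (Set.range (t i))
    have h3 : ∑ i ∈ A, Module.finrank M (Submodule.span M
        ((Submodule.span L (Set.range (t i)) : Submodule L K) : Set K)) =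
        ∑ i ∈ A, Module.finrank M (Submodule.span M (Set.range (t i))) :=
      Finset.sum_congr rfl fun i _ => by rw [h2]
    exact h1.trans_eq (congrArg (fun z => 1 + z) h3.symm))
  rw [← htop, Submodule.prod_span, Submodule.span_le]
  intro x hx
  rw [Set.mem_finsetProd] at hx
  obtain ⟨g, hg, rfl⟩ := hx
  choose j0 hj0 using ht
  have hex : ∀ i, ∃ j, i ∈ A → t i j = g i := fun i => by
    by_cases hi : i ∈ A
    · obtain ⟨j, hj⟩ := hg hi
      exact ⟨j, fun _ => hj⟩
    · exact ⟨j0 i, fun h => absurd h hi⟩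
  choose e he using hex
  refine Submodule.subset_span ⟨e, ?_⟩
  exact Finset.prod_congr rfl fun i hi => (he i hi).symm

end

/-- **The Kodaira dimension of images.** -/
theorem gen_kap {K : Type} [Field K] [Algebra ℂ K] [Algebra.EssFiniteType ℂ K] {k n : ℕ}
    (hn : Algebra.trdeg ℂ K = n) {a : Fin k → ℕ} {t : ∀ i, Fin (a i) → K}
    (ht : ∀ i, ∃ j, t i j ≠ 0) {W : (Fin n → Derivation ℂ K K) → K} (hW : IsPluri 1 W)
    (hW0 : ∃ G, W G ≠ 0)
    (hreg : ∀ e : ∀ i, Fin (a i), ∀ P : Place ℂ K, Divisorial n P →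
      RegAt P (fun G => (∏ i, t i (e i)) * W G))
    (L : IntermediateField ℂ K) [FiniteDimensional L K] {A B : Finset (Fin k)}
    (hAB : Disjoint A B)
    (hA : ∀ M : IntermediateField L K, M ≠ ⊤ → Module.finrank M K + A.card ≤
      1 + ∑ i ∈ A, Module.finrank M (Submodule.span M (Set.range (t i))))
    (hB : ∀ M : IntermediateField L K, M ≠ ⊤ → Module.finrank M K + B.card ≤
      1 + ∑ i ∈ B, Module.finrank M (Submodule.span M (Set.range (t i))))
    (hC : ∀ M : IntermediateField L K, M ≠ ⊤ → ∃ i, i ∉ A ∧ i ∉ B ∧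
      2 ≤ Module.finrank M (Submodule.span M (Set.range (t i)))) {h : ℕ}
    (hKod : KodGe ℂ K n (fun _ => False) h) : KodGe ℂ L n (fun _ => False) h := by
  classical
  have hK0 : CharZero K := charZero_of_injective_algebraMap (algebraMap ℂ K).injective
  have hL0 : CharZero L := charZero_of_injective_algebraMap (algebraMap ℂ L).injective
  have hessL : Algebra.EssFiniteType ℂ L := Pool.Agent.TH466.QG.ess_below (K := K)
  have hL : Algebra.trdeg ℂ L = n := Pool.Agent.Y184.NT.trdeg_below (K := K) hn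
  obtain ⟨z, E, hz, hE⟩ := Pool.Agent.Y172.exists_crd (k := ℂ) (K := L) hL
  choose E' hE' using fun i => Pool.Agent.Y172.exists_lift (k := ℂ) (K := L) (L := K) hL (E i)
  have hzK : IsTranscendenceBasis ℂ (fun j => algebraMap L K (z j)) := hz.algebraMap_comp
  have hE'd := Pool.Agent.Y172.lift_dual hE hE'
  obtain ⟨J, hJ⟩ : ∃ J : K, J = W E' := ⟨_, rfl⟩
  have hJ0 : J ≠ 0 := by
    obtain ⟨G, hG⟩ := hW0
    have h1 := Pool.Agent.Y172.pluri_coord hzK hE'd hW G
    rw [h1] at hG
    rw [hJ]
    exact right_ne_zero_of_mul hG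
  have hpl : ∀ e : ∀ i, Fin (a i), IsPluri 1 (fun G => (∏ i, t i (e i)) * W G) := by
    intro e A G
    change (∏ i, t i (e i)) * W _ = _ * ((∏ i, t i (e i)) * W G)
    rw [hW A G]
    ring
  choose j0 hj0 using ht
  have hsA := span_top (L := L) (fun i => ⟨j0 i, hj0 i⟩) A hA
  have hsB := span_top (L := L) (fun i => ⟨j0 i, hj0 i⟩) B hB
  -- the product of a choice of coordinates
  have hsplit : ∀ eA eB eR : ∀ i, Fin (a i), ∃ e : ∀ i, Fin (a i),
      (∏ i ∈ A, t i (eA i)) * (∏ i ∈ B, t i (eB i)) * ∏ i ∈ Finset.univ \ (A ∪ B), t i (eR i) =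
        ∏ i, t i (e i) := by
    intro eA eB eR
    refine ⟨fun i => if i ∈ A then eA i else if i ∈ B then eB i else eR i, ?_⟩
    rw [← Finset.prod_sdiff (Finset.subset_univ (A ∪ B)), Finset.prod_union hAB, mul_comm]
    congr 1
    · refine Finset.prod_congr rfl fun i hi => ?_
      rw [Finset.mem_sdiff, Finset.mem_union, not_or] at hi
      change t i (eR i) = t i (if i ∈ A then eA i else if i ∈ B then eB i else eR i)
      rw [if_neg hi.2.1, if_neg hi.2.2]
    · congr 1
      · refine Finset.prod_congr rfl fun i hi => ?_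
        change t i (eA i) = t i (if i ∈ A then eA i else if i ∈ B then eB i else eR i)
        rw [if_pos hi]
      · refine Finset.prod_congr rfl fun i hi => ?_
        change t i (eB i) = t i (if i ∈ A then eA i else if i ∈ B then eB i else eR i)
        rw [if_neg (Finset.disjoint_right.1 hAB hi), if_pos hi]
  -- a nonzero trace
  obtain ⟨e1, hT0⟩ : ∃ e : ∀ i, Fin (a i), Algebra.trace L K (J * ∏ i, t i (e i)) ≠ 0 := by
    by_contra hcon
    push Not at hcon
    obtain ⟨g, hg⟩ : ∃ g, g = ∏ i ∈ B, t i (j0 i) * 1 := ⟨_, rfl⟩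
    obtain ⟨R, hR⟩ : ∃ R, R = (∏ i ∈ B, t i (j0 i)) * ∏ i ∈ Finset.univ \ (A ∪ B), t i (j0 i) :=
      ⟨_, rfl⟩
    have hR0 : R ≠ 0 := by
      rw [hR]
      exact mul_ne_zero (Finset.prod_ne_zero_iff.2 fun i _ => hj0 i)
        (Finset.prod_ne_zero_iff.2 fun i _ => hj0 i)
    obtain ⟨x, hx⟩ := exists_trace (L := L) (mul_ne_zero hJ0 hR0)
    apply hx
    have h1 : Submodule.span L {x : K | ∃ e : ∀ i, Fin (a i), x = ∏ i ∈ A, t i (e i)} ≤
        LinearMap.ker ((Algebra.trace L K).comp (LinearMap.mulLeft L (J * R))) := by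
      rw [Submodule.span_le]
      rintro _ ⟨e, rfl⟩
      obtain ⟨e', he'⟩ := hsplit e j0 j0
      have h2 := hcon e'
      rw [← he'] at h2
      change Algebra.trace L K (J * R * ∏ i ∈ A, t i (e i)) = 0
      rw [← h2, hR]
      congr 1
      ring
    exact LinearMap.mem_ker.1 (h1 (hsA (by trivial : x ∈ (⊤ : Submodule L K))))
  obtain ⟨N, hN⟩ : ∃ N : IntermediateField ℂ L, N = IntermediateField.adjoin ℂ
    {x : L | ∃ e : ∀ i, Fin (a i), x = Algebra.trace L K (J * ∏ i, t i (e i)) /
      Algebra.trace L K (J * ∏ i, t i (e1 i))} := ⟨_, rfl⟩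
  have hNm : ∀ e : ∀ i, Fin (a i), Algebra.trace L K (J * ∏ i, t i (e i)) /
      Algebra.trace L K (J * ∏ i, t i (e1 i)) ∈ N := by
    intro e
    rw [hN]
    exact IntermediateField.subset_adjoin _ _ ⟨e, rfl⟩
  -- the ratios are algebraic
  have halg : ∀ i, i ∉ A → i ∉ B → ∀ j j', t i j' ≠ 0 → IsAlgebraic N (t i j / t i j') := by
    intro i hiA hiB j j' hj'
    obtain ⟨R, hR⟩ : ∃ R, R = ∏ l ∈ (Finset.univ \ (A ∪ B)).erase i, t l (j0 l) := ⟨_, rfl⟩
    have hR0 : R ≠ 0 := by
      rw [hR]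
      exact Finset.prod_ne_zero_iff.2 fun i _ => hj0 i
    have hmem : ∀ v : Fin (a i), ∀ x ∈ {x : K | ∃ e : ∀ i, Fin (a i), x = ∏ i ∈ A, t i (e i)},
        ∀ y ∈ {x : K | ∃ e : ∀ i, Fin (a i), x = ∏ i ∈ B, t i (e i)},
        Algebra.trace L K (J * R * (t i v * (x * y))) /
          Algebra.trace L K (J * ∏ i, t i (e1 i)) ∈ N := by
      rintro v _ ⟨eA, rfl⟩ _ ⟨eB, rfl⟩
      obtain ⟨e, he⟩ := hsplit eA eB (Function.update j0 i v)
      have h1 : J * R * (t i v * ((∏ i ∈ A, t i (eA i)) * ∏ i ∈ B, t i (eB i))) =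
          J * ∏ i, t i (e i) := by
        rw [← he]
        have hi : i ∈ Finset.univ \ (A ∪ B) := by
          rw [Finset.mem_sdiff, Finset.mem_union, not_or]
          exact ⟨Finset.mem_univ i, hiA, hiB⟩
        rw [← Finset.mul_prod_erase _ _ hi, Function.update_self]
        have h2 : ∏ l ∈ (Finset.univ \ (A ∪ B)).erase i, t l (Function.update j0 i v l) = R := by
          rw [hR]
          refine Finset.prod_congr rfl fun l hl => ?_
          rw [Function.update_of_ne (Finset.ne_of_mem_erase hl)]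
        rw [h2]
        ring
      rw [h1]
      exact hNm e
    exact alg_ratio N (mul_ne_zero hJ0 hR0) hj' hT0 hsA hsB (hmem j) (hmem j')
  -- the field of the ratios of pluricanonical forms
  obtain ⟨T, hT⟩ : ∃ T : (∀ i, Fin (a i)) → L,
    T = fun e => Algebra.trace L K (J * ∏ i, t i (e i)) := ⟨_, rfl⟩
  have hTreg : ∀ e, Rg z 1 (T e) := by
    intro e P hP
    have h1 := Pool.Agent.R882.LT.trForm_regAt hL hz hE hE' _ (hpl e) P hP fun Q r hQ =>
        hreg e Q (Pool.Agent.Y172.divisorial_up hQ hP)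
    have h2 : pf z 1 (T e) = Pool.Agent.Y184.NT.trForm z
        (Algebra.trace L K ((∏ i, t i (e i)) * W E')) := by
      funext G
      rw [pf, Pool.Agent.Y184.NT.trForm, pow_one, hT, ← hJ, mul_comm (∏ i, t i (e i)) J]
    rw [h2]
    exact h1
  have hT0' : T e1 ≠ 0 := by
    rw [hT]
    exact hT0
  have hNN : N ≤ Nf z := by
    rw [hN, IntermediateField.adjoin_le_iff]
    rintro _ ⟨e, rfl⟩
    refine mem_Nf.2 ⟨1, T e, T e1, hTreg e, hTreg e1, hT0', ?_⟩
    rw [hT]
  have hup : ∀ u : K, IsAlgebraic N u → IsAlgebraic (Nf z) u := by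
    intro u hu
    let _ : Algebra N (Nf z) := (IntermediateField.inclusion hNN).toRingHom.toAlgebra
    have : IsScalarTower N (Nf z) K := IsScalarTower.of_algebraMap_eq fun _ => rfl
    exact hu.extendScalars (IntermediateField.inclusion hNN).toRingHom.injective
  -- a primitive element
  obtain ⟨S, hS⟩ : ∃ S : Submodule ℂ K, S = Submodule.span ℂ
    {x : K | ∃ i j j', i ∉ A ∧ i ∉ B ∧ t i j' ≠ 0 ∧ x = t i j / t i j'} := ⟨_, rfl⟩
  obtain ⟨b, hbS, hb⟩ := exists_prim' (L := L) S (by
    by_contra hcon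
    obtain ⟨i, hiA, hiB, hi⟩ := hC _ hcon
    obtain ⟨M, hM⟩ : ∃ M, M = IntermediateField.adjoin L (S : Set K) := ⟨_, rfl⟩
    rw [← hM] at hi
    have h1 : Submodule.span M (Set.range (t i)) ≤ Submodule.span M {t i (j0 i)} := by
      rw [Submodule.span_le]
      rintro _ ⟨j, rfl⟩
      refine Submodule.mem_span_singleton.2 ⟨⟨t i j / t i (j0 i), ?_⟩, ?_⟩
      · rw [hM]
        refine IntermediateField.subset_adjoin _ _ ?_
        rw [hS]
        exact Submodule.subset_span ⟨i, j, j0 i, hiA, hiB, hj0 i, rfl⟩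
      · change t i j / t i (j0 i) * t i (j0 i) = t i j
        exact div_mul_cancel₀ _ (hj0 i)
    have h2 := Submodule.finrank_mono h1
    rw [finrank_span_singleton (hj0 i)] at h2
    omega)
  have hbN : IsAlgebraic N b := by
    rw [hS] at hbS
    clear hb
    induction hbS using Submodule.span_induction with
    | mem x hx =>
      obtain ⟨i, j, j', hiA, hiB, hj', rfl⟩ := hx
      exact halg i hiA hiB j j' hj'
    | zero => exact isAlgebraic_zero
    | add x y _ _ hx hy => exact hx.add hy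
    | smul c x _ hx =>
      rw [Algebra.smul_def]
      have h1 : IsAlgebraic N (algebraMap ℂ K c) :=
        isAlgebraic_algebraMap (A := K) (algebraMap ℂ N c)
      exact h1.mul hx
  exact kod_up hL hz hE hE' hb (hup _ hbN) hT0' (hTreg e1) hKod

end Pool.Agent.Helper11K9.KN
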