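import Mathlib

/-!
The linear version of Kneser's theorem for products of subspaces of a field extension (Hou, Leung,
Xiang), and its consequence for products of several subspaces.
-/

set_option autoImplicit false
set_option linter.unusedSectionVars false

namespace Pool.Agent.Helper11K9.KN

section

variable {L K : Type} [Field L] [Field K] [Algebra L K] [FiniteDimensional L K]

/-- the subspace is stable under multiplication by the elements of the intermediate field -/
def Stable (H : IntermediateField L K) (V : Submodule L K) : Prop := ∀ h ∈ H, ∀ v ∈ V, h * v ∈ V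

/-- the stabiliser of a subspace -/
def stab (P : Submodule L K) : IntermediateField L K where
  carrier := {x | ∀ v ∈ P, x * v ∈ P}
  mul_mem' := fun {a b} ha hb v hv => by
    rw [mul_assoc]
    exact ha _ (hb v hv)
  add_mem' := fun {a b} ha hb v hv => by
    rw [add_mul]
    exact P.add_mem (ha v hv) (hb v hv)
  algebraMap_mem' := fun c v hv => by
    rw [← Algebra.smul_def]
    exact P.smul_mem c hv
  inv_mem' := fun x hx v hv => by
    by_cases h0 : x = 0
    · rw [h0, inv_zero, zero_mul]
      exact P.zero_mem
    · let f : P →ₗ[L] P := (LinearMap.mulLeft L x).restrict hx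
      have hinj : Function.Injective f := by
        intro a b hab
        have h1 : x * (a : K) = x * (b : K) := congrArg Subtype.val hab
        exact Subtype.ext (mul_left_cancel₀ h0 h1)
      obtain ⟨w, hw⟩ := LinearMap.surjective_of_injective hinj ⟨v, hv⟩
      have h1 : x * (w : K) = v := congrArg Subtype.val hw
      rw [← h1, inv_mul_cancel_left₀ h0]
      exact w.2

theorem mem_stab {P : Submodule L K} {x : K} : x ∈ stab P ↔ ∀ v ∈ P, x * v ∈ P := Iff.rfl

theorem stable_iff {H : IntermediateField L K} {P : Submodule L K} : Stable H P ↔ H ≤ stab P :=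
  Iff.rfl

theorem finrank_map {f : K →ₗ[L] K} (hf : Function.Injective f) (A : Submodule L K) :
    Module.finrank L (A.map f) = Module.finrank L A :=
  (LinearEquiv.finrank_eq (Submodule.equivMapOfInjective f hf A)).symm

/-- the step of the proof of Kneser's theorem, for the element `1` -/
theorem elt_one (m : ℕ) : ∀ A B : Submodule L K, Module.finrank L A ≤ m → (1 : K) ∈ A →
    ∃ (H : IntermediateField L K) (V : Submodule L K), B ≤ V ∧ V ≤ A * B ∧ Stable H V ∧
      Module.finrank L A + Module.finrank L B ≤ Module.finrank L V + Module.finrank L H := by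
  induction m with
  | zero =>
    intro A B hm h1
    have h2 : A = ⊥ := Submodule.finrank_eq_zero.1 (Nat.le_zero.1 hm)
    rw [h2, Submodule.mem_bot] at h1
    exact absurd h1 one_ne_zero
  | succ m ih =>
    intro A B hm h1
    by_cases hAB : ∀ e ∈ B, ∀ a ∈ A, a * e ∈ B
    · have hB : B ≤ A * B := fun b hb => by
        have := Submodule.mul_mem_mul h1 hb
        rwa [one_mul] at this
      have hH : IntermediateField.adjoin L (A : Set K) ≤ stab B :=
        IntermediateField.adjoin_le_iff.2 fun a ha v hv => hAB v hv a ha
      refine ⟨IntermediateField.adjoin L (A : Set K), B, le_rfl, hB, hH, ?_⟩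
      have h2 : A ≤ (IntermediateField.adjoin L (A : Set K)).toSubalgebra.toSubmodule :=
        fun a ha => IntermediateField.subset_adjoin L _ ha
      have h3 := Submodule.finrank_mono h2
      have h4 : Module.finrank L (IntermediateField.adjoin L (A : Set K)).toSubalgebra.toSubmodule =
          Module.finrank L (IntermediateField.adjoin L (A : Set K)) := rfl
      omega
    · push Not at hAB
      obtain ⟨e, he, a0, ha0, hae⟩ := hAB
      have he0 : e ≠ 0 := by
        intro h
        apply hae
        rw [h, mul_zero]
        exact B.zero_mem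
      let f : K →ₗ[L] K := LinearMap.mulRight L e
      have hf : Function.Injective f := fun a b hab => mul_right_cancel₀ he0 hab
      obtain ⟨A', hA'⟩ : ∃ A' : Submodule L K, A' = A ⊓ B.comap f := ⟨_, rfl⟩
      obtain ⟨B', hB'⟩ : ∃ B' : Submodule L K, B' = B ⊔ A.map f := ⟨_, rfl⟩
      have h1' : (1 : K) ∈ A' := by
        rw [hA']
        refine ⟨h1, ?_⟩
        change (1 : K) * e ∈ B
        rwa [one_mul]
      have hlt : A' < A := by
        rw [hA']
        refine lt_of_le_of_ne inf_le_left fun h => hae ?_
        have h2 : a0 ∈ A ⊓ B.comap f := by rwa [h]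
        exact h2.2
      have hlt' := Submodule.finrank_lt_finrank_of_lt hlt
      have hdim : Module.finrank L A' + Module.finrank L B' =
          Module.finrank L A + Module.finrank L B := by
        have h2 := Submodule.finrank_sup_add_finrank_inf_eq B (A.map f)
        have h3 : B ⊓ A.map f = A'.map f := by
          rw [hA']
          ext z
          constructor
          · rintro ⟨hz, a, ha, rfl⟩
            exact ⟨a, ⟨ha, hz⟩, rfl⟩
          · rintro ⟨a, ⟨ha, hz⟩, rfl⟩
            exact ⟨hz, a, ha, rfl⟩
        rw [h3, finrank_map hf, finrank_map hf, ← hB'] at h2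
        omega
      obtain ⟨H, V, hBV, hV, hst, hfr⟩ := ih A' B' (by omega) h1'
      refine ⟨H, V, le_trans (by rw [hB']; exact le_sup_left) hBV, hV.trans ?_, hst, by omega⟩
      rw [Submodule.mul_le]
      intro a ha b hb
      rw [hA'] at ha
      rw [hB'] at hb
      obtain ⟨b1, hb1, b2, ⟨a2, ha2, rfl⟩, rfl⟩ := Submodule.mem_sup.1 hb
      rw [mul_add]
      refine Submodule.add_mem _ (Submodule.mul_mem_mul ha.1 hb1) ?_
      have h2 : a * f a2 = a2 * f a := by
        change a * (a2 * e) = a2 * (a * e)
        ring
      rw [h2]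
      exact Submodule.mul_mem_mul ha2 ha.2

/-- the step of the proof of Kneser's theorem -/
theorem elt (A B : Submodule L K) {x : K} (hx : x ∈ A) (hx0 : x ≠ 0) :
    ∃ (H : IntermediateField L K) (V : Submodule L K), (∀ b ∈ B, x * b ∈ V) ∧ V ≤ A * B ∧
      Stable H V ∧
      Module.finrank L A + Module.finrank L B ≤ Module.finrank L V + Module.finrank L H := by
  let f : K →ₗ[L] K := LinearMap.mulLeft L x⁻¹
  let g : K →ₗ[L] K := LinearMap.mulLeft L x
  have hf : Function.Injective f := fun a b hab => mul_left_cancel₀ (inv_ne_zero hx0) hab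
  have hg : Function.Injective g := fun a b hab => mul_left_cancel₀ hx0 hab
  obtain ⟨H, V, hBV, hV, hst, hfr⟩ := elt_one (Module.finrank L (A.map f)) (A.map f) B le_rfl
    ⟨x, hx, inv_mul_cancel₀ hx0⟩
  rw [finrank_map hf] at hfr
  refine ⟨H, V.map g, fun b hb => ⟨b, hBV hb, rfl⟩, ?_, ?_, ?_⟩
  · rw [Submodule.map_le_iff_le_comap]
    refine hV.trans ?_
    rw [Submodule.mul_le]
    rintro _ ⟨a, ha, rfl⟩ b hb
    change x * (x⁻¹ * a * b) ∈ A * B
    rw [mul_assoc, mul_inv_cancel_left₀ hx0]
    exact Submodule.mul_mem_mul ha hb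
  · rintro h hh _ ⟨v, hv, rfl⟩
    refine ⟨h * v, hst h hh v hv, ?_⟩
    change x * (h * v) = h * (x * v)
    ring
  · rw [finrank_map hg]
    exact hfr

/-- **Kneser's theorem for field extensions** (Hou, Leung, Xiang). -/
theorem kneser [Infinite L] [Finite (IntermediateField L K)] (A B : Submodule L K) (hA : A ≠ ⊥) :
    ∃ H : IntermediateField L K, Stable H (A * B) ∧
      Module.finrank L A + Module.finrank L B ≤
        Module.finrank L (A * B : Submodule L K) + Module.finrank L H := by
  classical
  have hex : ∀ x : A, ∃ (H : IntermediateField L K), x ≠ 0 →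
      ∃ (V : Submodule L K), (∀ b ∈ B, (x : K) * b ∈ V) ∧ V ≤ A * B ∧ Stable H V ∧
      Module.finrank L A + Module.finrank L B ≤ Module.finrank L V + Module.finrank L H := by
    intro x
    by_cases hx : x = 0
    · exact ⟨⊥, fun h => absurd hx h⟩
    · obtain ⟨H, V, h⟩ := elt A B x.2 fun h => hx (Subtype.ext h)
      exact ⟨H, fun _ => ⟨V, h⟩⟩
  choose Hf hHf using hex
  obtain ⟨S, hS⟩ : ∃ S : IntermediateField L K → Submodule L A,
    S = fun H => Submodule.span L {x | x ≠ 0 ∧ Hf x = H} := ⟨_, rfl⟩
  obtain ⟨H, hH⟩ := Subspace.exists_eq_top_of_iUnion_eq_univ (p := S) (by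
    rw [Set.eq_univ_iff_forall]
    intro x
    by_cases hx : x = 0
    · rw [hx]
      exact Set.mem_iUnion.2 ⟨⊥, Submodule.zero_mem _⟩
    · refine Set.mem_iUnion.2 ⟨Hf x, ?_⟩
      rw [hS]
      exact Submodule.subset_span ⟨hx, rfl⟩)
  rw [hS] at hH
  change Submodule.span L {x | x ≠ 0 ∧ Hf x = H} = ⊤ at hH
  refine ⟨H, ?_, ?_⟩
  · intro h hh
    have h1 : ∀ a : A, ∀ b ∈ B, h * ((a : K) * b) ∈ A * B := by
      intro a
      have ha : a ∈ Submodule.span L {x | x ≠ 0 ∧ Hf x = H} := by
        rw [hH]
        trivial
      induction ha using Submodule.span_induction with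
      | mem x hx =>
        intro b hb
        obtain ⟨V, h2, h3, h4, -⟩ := hHf x hx.1
        rw [hx.2] at h4
        exact h3 (h4 h hh _ (h2 b hb))
      | zero =>
        intro b hb
        rw [ZeroMemClass.coe_zero, zero_mul, mul_zero]
        exact Submodule.zero_mem _
      | add x y _ _ hx hy =>
        intro b hb
        rw [Submodule.coe_add, add_mul, mul_add]
        exact Submodule.add_mem _ (hx b hb) (hy b hb)
      | smul c x _ hx =>
        intro b hb
        rw [Submodule.coe_smul, smul_mul_assoc, mul_smul_comm]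
        exact Submodule.smul_mem _ c (hx b hb)
    have h2 : A * B ≤ (A * B).comap (LinearMap.mulLeft L h) := by
      rw [Submodule.mul_le]
      exact fun a ha b hb => h1 ⟨a, ha⟩ b hb
    exact fun v hv => h2 hv
  · have hne : {x : A | x ≠ 0 ∧ Hf x = H}.Nonempty := by
      rw [Set.nonempty_iff_ne_empty]
      intro h
      rw [h, Submodule.span_empty] at hH
      apply hA
      rw [Submodule.eq_bot_iff]
      intro a ha
      have h1 : (⟨a, ha⟩ : A) ∈ (⊥ : Submodule L A) := by
        rw [hH]
        trivial
      exact congrArg Subtype.val ((Submodule.mem_bot L).1 h1)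
    obtain ⟨x, hx0, hxH⟩ := hne
    obtain ⟨V, -, h3, -, h5⟩ := hHf x hx0
    rw [hxH] at h5
    have := Submodule.finrank_mono h3
    omega

/-- the intermediate field as a subspace -/
abbrev sm (M : IntermediateField L K) : Submodule L K := M.toSubalgebra.toSubmodule

theorem sm_mul (M : IntermediateField L K) : sm M * sm M = sm M := by
  apply le_antisymm
  · rw [Submodule.mul_le]
    exact fun a ha b hb => M.mul_mem ha hb
  · intro a ha
    have := Submodule.mul_mem_mul (M := sm M) (N := sm M) ha M.one_mem
    rwa [mul_one] at this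

theorem sm_stab (P : Submodule L K) : sm (stab P) * P = P := by
  apply le_antisymm
  · rw [Submodule.mul_le]
    exact fun a ha b hb => ha b hb
  · intro a ha
    have := Submodule.mul_mem_mul (M := sm (stab P)) (N := P) (stab P).one_mem ha
    rwa [one_mul] at this

/-- **Kneser's theorem for several factors.** -/
theorem kneser_prod [Infinite L] [Finite (IntermediateField L K)] {ι : Type} [DecidableEq ι]
    (U : ι → Submodule L K) (hU : ∀ i, U i ≠ ⊥) (s t : Finset ι) (hts : t ⊆ s) :
    ∑ i ∈ t, Module.finrank L (sm (stab (∏ i ∈ s, U i)) * U i : Submodule L K) +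
        Module.finrank L (stab (∏ i ∈ s, U i)) ≤
      Module.finrank L (sm (stab (∏ i ∈ s, U i)) * ∏ i ∈ t, U i : Submodule L K) +
        t.card * Module.finrank L (stab (∏ i ∈ s, U i)) := by
  obtain ⟨M, hM⟩ : ∃ M, M = stab (∏ i ∈ s, U i) := ⟨_, rfl⟩
  rw [← hM]
  induction t using Finset.induction_on with
  | empty =>
    rw [Finset.sum_empty, Finset.prod_empty, mul_one, Finset.card_empty, zero_mul, zero_add,
      add_zero]
    exact le_rfl
  | insert a t hat ih =>
    have ih' := ih ((Finset.subset_insert a t).trans hts)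
    obtain ⟨H, hst, hfr⟩ := kneser (sm M * U a) (sm M * ∏ i ∈ t, U i) (by
      intro h
      apply hU a
      rw [eq_bot_iff, ← h]
      intro u hu
      have := Submodule.mul_mem_mul (M := sm M) (N := U a) M.one_mem hu
      rwa [one_mul] at this)
    have hprod : (sm M * U a) * (sm M * ∏ i ∈ t, U i) = sm M * ∏ i ∈ insert a t, U i := by
      rw [Finset.prod_insert hat, mul_mul_mul_comm, sm_mul]
    rw [hprod] at hst hfr
    have hHM : H ≤ M := by
      rw [hM]
      intro h hh v hv
      have h1 : ∏ i ∈ s, U i = (sm M * ∏ i ∈ insert a t, U i) * ∏ i ∈ s \ insert a t, U i := by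
        rw [mul_assoc, mul_comm (∏ i ∈ insert a t, U i), Finset.prod_sdiff hts, hM, sm_stab]
      rw [h1] at hv ⊢
      have h2 : (sm M * ∏ i ∈ insert a t, U i) * ∏ i ∈ s \ insert a t, U i ≤
          ((sm M * ∏ i ∈ insert a t, U i) * ∏ i ∈ s \ insert a t, U i).comap
            (LinearMap.mulLeft L h) := by
        rw [Submodule.mul_le]
        intro x hx y hy
        have h3 := Submodule.mul_mem_mul (hst h hh x hx) hy
        rw [Submodule.mem_comap, LinearMap.mulLeft_apply, ← mul_assoc h x y]
        exact h3
      exact h2 hv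
    have hfrH : Module.finrank L H ≤ Module.finrank L M :=
      LinearMap.finrank_le_finrank_of_injective
        (f := (IntermediateField.inclusion hHM).toLinearMap)
        (IntermediateField.inclusion hHM).toRingHom.injective
    rw [Finset.sum_insert hat, Finset.card_insert_of_notMem hat, add_mul, one_mul]
    omega

/-- a stable subspace is a subspace over the intermediate field -/
def ext {M : IntermediateField L K} {P : Submodule L K} (h : Stable M P) : Submodule M K where
  carrier := P
  add_mem' := fun ha hb => P.add_mem ha hb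
  zero_mem' := P.zero_mem
  smul_mem' := fun c x hx => h c c.2 x hx

theorem finrank_ext {M : IntermediateField L K} {P : Submodule L K} (h : Stable M P) :
    Module.finrank L P = Module.finrank L M * Module.finrank M (ext h) := by
  have h1 := Module.finrank_mul_finrank L M (ext h)
  rw [h1]
  have e : P ≃ₗ[L] ext h :=
    { toFun := fun x => ⟨x.1, x.2⟩
      invFun := fun x => ⟨x.1, x.2⟩
      map_add' := fun x y => rfl
      map_smul' := fun c x => by
        apply Subtype.ext
        change c • (x : K) = _
        rfl
      left_inv := fun x => rfl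
      right_inv := fun x => rfl }
  exact e.finrank_eq

theorem stable_sm (M : IntermediateField L K) (U : Submodule L K) : Stable M (sm M * U) := by
  intro h hh
  have h2 : sm M * U ≤ (sm M * U).comap (LinearMap.mulLeft L h) := by
    rw [Submodule.mul_le]
    intro x hx y hy
    have h3 := Submodule.mul_mem_mul (M := sm M) (N := U) (M.mul_mem hh hx) hy
    rw [mul_assoc] at h3
    exact h3
  exact fun v hv => h2 hv

theorem ext_eq_span (M : IntermediateField L K) (U : Submodule L K) :
    ext (stable_sm M U) = Submodule.span M (U : Set K) := by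
  apply le_antisymm
  · intro x hx
    have hx' : x ∈ sm M * U := hx
    clear hx
    induction hx' using Submodule.mul_induction_on' with
    | mem_mul_mem m hm n hn =>
      have h1 := Submodule.smul_mem (Submodule.span M (U : Set K)) (⟨m, hm⟩ : M)
        (Submodule.subset_span hn)
      exact h1
    | add x hx y hy hx' hy' => exact Submodule.add_mem _ hx' hy'
  · rw [Submodule.span_le]
    intro u hu
    change u ∈ sm M * U
    have := Submodule.mul_mem_mul (M := sm M) (N := U) M.one_mem hu
    rwa [one_mul] at this

/-- **Products of subspaces.** If the product of the subspaces is not everything then it is stable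
under an intermediate field over which the dimensions satisfy Kneser's inequality. -/
theorem exists_field [Infinite L] [Finite (IntermediateField L K)] {k : ℕ}
    (U : Fin k → Submodule L K) (hU : ∀ i, U i ≠ ⊥) (hcon : ∏ i, U i ≠ ⊤) :
    ∃ M : IntermediateField L K, M ≠ ⊤ ∧ Stable M (∏ i, U i) ∧
      2 + ∑ i, Module.finrank M (Submodule.span M (U i : Set K)) ≤ Module.finrank M K + k := by
  classical
  obtain ⟨P, hP⟩ : ∃ P, P = ∏ i, U i := ⟨_, rfl⟩
  obtain ⟨M, hM⟩ : ∃ M, M = stab P := ⟨_, rfl⟩
  rw [← hP] at hcon ⊢
  have hstP : Stable M P := by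
    rw [hM]
    exact stable_iff.2 le_rfl
  have hP0 : P ≠ ⊥ := by
    have hel : ∀ i, ∃ u ∈ U i, u ≠ 0 := fun i => (Submodule.ne_bot_iff _).1 (hU i)
    choose u hu hu0 using hel
    intro h0
    have hpr : ∀ t : Finset (Fin k), ∏ i ∈ t, u i ∈ ∏ i ∈ t, U i := by
      intro t
      induction t using Finset.induction_on with
      | empty =>
        rw [Finset.prod_empty, Finset.prod_empty]
        exact Submodule.one_le.1 le_rfl
      | insert a t ha ih =>
        rw [Finset.prod_insert ha, Finset.prod_insert ha]
        exact Submodule.mul_mem_mul (hu a) ih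
    have h1 : ∏ i, u i ∈ P := by
      rw [hP]
      exact hpr _
    rw [h0, Submodule.mem_bot] at h1
    exact Finset.prod_ne_zero_iff.2 (fun i _ => hu0 i) h1
  have hMtop : M ≠ ⊤ := by
    intro h1
    apply hcon
    rw [eq_top_iff]
    intro x _
    obtain ⟨v, hv, hv0⟩ := (Submodule.ne_bot_iff _).1 hP0
    have h2 := hstP (x * v⁻¹) (by rw [h1]; trivial) v hv
    rwa [inv_mul_cancel_right₀ hv0] at h2
  have h1 := kneser_prod U hU Finset.univ Finset.univ (Finset.Subset.refl _)
  rw [← hP, ← hM, hM, sm_stab, ← hM] at h1
  have h2 : ∀ i, Module.finrank L (sm M * U i : Submodule L K) =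
      Module.finrank L M * Module.finrank M (Submodule.span M (U i : Set K)) := fun i => by
    rw [finrank_ext (stable_sm M (U i)), ext_eq_span]
  simp only [h2] at h1
  rw [← Finset.mul_sum, finrank_ext hstP, Finset.card_univ, Fintype.card_fin] at h1
  have h3 : Module.finrank M (ext hstP) < Module.finrank M K := by
    apply Submodule.finrank_lt
    intro h4
    apply hcon
    rw [eq_top_iff]
    intro x _
    have h5 : x ∈ ext hstP := by
      rw [h4]
      trivial
    exact h5
  refine ⟨M, hMtop, hstP, ?_⟩
  have h5 : 0 < Module.finrank L M := Module.finrank_pos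
  obtain ⟨a, ha⟩ : ∃ a, a = Module.finrank L M := ⟨_, rfl⟩
  obtain ⟨b, hb⟩ : ∃ b, b = ∑ i, Module.finrank M (Submodule.span M (U i : Set K)) := ⟨_, rfl⟩
  obtain ⟨p, hp⟩ : ∃ p, p = Module.finrank M (ext hstP) := ⟨_, rfl⟩
  rw [← ha, ← hb, ← hp] at h1
  rw [← ha] at h5
  rw [← hb]
  rw [← hp] at h3
  have h6 : a * b + a ≤ a * p + k * a := h1
  have h7 : a * (b + 1) ≤ a * (p + k) := by
    calc a * (b + 1) = a * b + a := by ring
      _ ≤ a * p + k * a := h6
      _ = a * (p + k) := by ring
  have h8 := Nat.le_of_mul_le_mul_left h7 h5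
  omega

/-- **Products of subspaces are large.** -/
theorem prod_eq_top [Infinite L] [Finite (IntermediateField L K)] {k : ℕ}
    (U : Fin k → Submodule L K) (hU : ∀ i, U i ≠ ⊥)
    (h : ∀ M : IntermediateField L K, M ≠ ⊤ →
      Module.finrank M K + k ≤ 1 + ∑ i, Module.finrank M (Submodule.span M (U i : Set K))) :
    ∏ i, U i = ⊤ := by
  by_contra hcon
  obtain ⟨M, hM, -, h1⟩ := exists_field U hU hcon
  have h2 := h M hM
  omega

end

end Pool.Agent.Helper11K9.KN
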