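import Pool.Agent.Helper11K9.KN.Kneser

/-!
Kneser's theorem for several subspaces of a field extension, for a finite set of indices.
-/

set_option autoImplicit false
set_option linter.unusedSectionVars false

namespace Pool.Agent.Helper11K9.KN

section

variable {L K : Type} [Field L] [Field K] [Algebra L K] [FiniteDimensional L K]

/-- **Products of subspaces.** If the product of the subspaces is not everything then it is stable
under an intermediate field over which the dimensions satisfy Kneser's inequality. -/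
theorem exists_field_finset [Infinite L] [Finite (IntermediateField L K)] {ι : Type} [DecidableEq ι]
    (U : ι → Submodule L K) (hU : ∀ i, U i ≠ ⊥) (s : Finset ι) (hcon : ∏ i ∈ s, U i ≠ ⊤) :
    ∃ M : IntermediateField L K, M ≠ ⊤ ∧ Stable M (∏ i ∈ s, U i) ∧
      2 + ∑ i ∈ s, Module.finrank M (Submodule.span M (U i : Set K)) ≤
        Module.finrank M K + s.card := by
  classical
  obtain ⟨P, hP⟩ : ∃ P, P = ∏ i ∈ s, U i := ⟨_, rfl⟩
  obtain ⟨M, hM⟩ : ∃ M, M = stab P := ⟨_, rfl⟩
  rw [← hP] at hcon ⊢
  have hstP : Stable M P := by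
    rw [hM]
    exact stable_iff.2 le_rfl
  have hP0 : P ≠ ⊥ := by
    have hel : ∀ i, ∃ u ∈ U i, u ≠ 0 := fun i => (Submodule.ne_bot_iff _).1 (hU i)
    choose u hu hu0 using hel
    intro h0
    have hpr : ∀ t : Finset ι, ∏ i ∈ t, u i ∈ ∏ i ∈ t, U i := by
      intro t
      induction t using Finset.induction_on with
      | empty =>
        rw [Finset.prod_empty, Finset.prod_empty]
        exact Submodule.one_le.1 le_rfl
      | insert a t ha ih =>
        rw [Finset.prod_insert ha, Finset.prod_insert ha]
        exact Submodule.mul_mem_mul (hu a) ih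
    have h1 : ∏ i ∈ s, u i ∈ P := by
      rw [hP]
      exact hpr _
    rw [h0, Submodule.mem_bot] at h1
    exact Finset.prod_ne_zero_iff.2 (fun i _ => hu0 i) h1
  have hMtop : M ≠ ⊤ := by
    intro h1
    apply hcon
    rw [eq_top_iff]
    intro x _
    obtain ⟨v, hv, hv0⟩ := (Submodule.ne_bot_iff _).1 hP0
    have h2 := hstP (x * v⁻¹) (by rw [h1]; trivial) v hv
    rwa [inv_mul_cancel_right₀ hv0] at h2
  have h1 := kneser_prod U hU s s (Finset.Subset.refl _)
  rw [← hP, ← hM, hM, sm_stab, ← hM] at h1
  have h2 : ∀ i, Module.finrank L (sm M * U i : Submodule L K) =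
      Module.finrank L M * Module.finrank M (Submodule.span M (U i : Set K)) := fun i => by
    rw [finrank_ext (stable_sm M (U i)), ext_eq_span]
  simp only [h2] at h1
  rw [← Finset.mul_sum, finrank_ext hstP] at h1
  have h3 : Module.finrank M (ext hstP) < Module.finrank M K := by
    apply Submodule.finrank_lt
    intro h4
    apply hcon
    rw [eq_top_iff]
    intro x _
    have h5 : x ∈ ext hstP := by
      rw [h4]
      trivial
    exact h5
  refine ⟨M, hMtop, hstP, ?_⟩
  have h5 : 0 < Module.finrank L M := Module.finrank_pos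
  obtain ⟨a, ha⟩ : ∃ a, a = Module.finrank L M := ⟨_, rfl⟩
  obtain ⟨b, hb⟩ : ∃ b, b = ∑ i ∈ s, Module.finrank M (Submodule.span M (U i : Set K)) :=
    ⟨_, rfl⟩
  obtain ⟨p, hp⟩ : ∃ p, p = Module.finrank M (ext hstP) := ⟨_, rfl⟩
  rw [← ha, ← hb, ← hp] at h1
  rw [← ha] at h5
  rw [← hb]
  rw [← hp] at h3
  have h6 : a * b + a ≤ a * p + s.card * a := h1
  have h7 : a * (b + 1) ≤ a * (p + s.card) := by
    calc a * (b + 1) = a * b + a := by ring
      _ ≤ a * p + s.card * a := h6
      _ = a * (p + s.card) := by ring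
  have h8 := Nat.le_of_mul_le_mul_left h7 h5
  omega

/-- **Products of subspaces are large.** -/
theorem prod_eq_top_finset [Infinite L] [Finite (IntermediateField L K)] {ι : Type} [DecidableEq ι]
    (U : ι → Submodule L K) (hU : ∀ i, U i ≠ ⊥) (s : Finset ι)
    (h : ∀ M : IntermediateField L K, M ≠ ⊤ →
      Module.finrank M K + s.card ≤ 1 + ∑ i ∈ s, Module.finrank M (Submodule.span M (U i : Set K))) :
    ∏ i ∈ s, U i = ⊤ := by
  by_contra hcon
  obtain ⟨M, hM, -, h1⟩ := exists_field_finset U hU s hcon
  have h2 := h M hM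
  omega

end

end Pool.Agent.Helper11K9.KN
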